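import Pool.Agent.Lib.MP_4fbe7c_an.UL.Iface

/-! Project UL (MP_4fbe7c_an), module SML: static inequality. -/

set_option autoImplicit false

open Set

namespace Pool.Agent.Lib.MP_4fbe7c_an.UL.H59

open Pool.Agent.Lib.MP_4fbe7c_an.UL

/-- `ψ(t) = t / (1 - t)`. -/
noncomputable def psi (t : ℝ) : ℝ := t / (1 - t)

lemma ranti' (n c : ℕ) (r : ℕ → ℝ) (hR : Rts n c r) :
    ∀ m, m ≤ n + 1 → ∀ k, k ≤ m → r m ≤ r k := by
  intro m
  induction m with
  | zero => intro _ k hk; rw [Nat.le_zero.1 hk]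
  | succ m ih =>
    intro hm k hk
    rcases Nat.lt_or_ge k (m + 1) with h | h
    · exact le_trans (hR.ranti m (by omega)) (ih (by omega) k (by omega))
    · rw [le_antisymm hk h]

lemma rnonneg (n c : ℕ) (r : ℕ → ℝ) (hR : Rts n c r) (k : ℕ) (hk : k ≤ n + 1) : 0 ≤ r k := by
  rcases Nat.lt_or_ge k (n + 1) with h | h
  · exact (hR.rpos k (by omega)).le
  · rw [le_antisymm hk h, hR.rlast]

lemma abel (n c : ℕ) (r S Z ZZ : ℕ → ℝ) (hR : Rts n c r) (hS : Sta n r S Z ZZ) :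
    ∀ N, N ≤ n → Z N - Z 0 =
      (∑ j ∈ Finset.range N, (ZZ (j + 1) - Z (j + 1)) * (psi (r (j + 1)) - psi (r (j + 2))))
        + (ZZ N - Z N) * psi (r (N + 1)) := by
  intro N
  induction N with
  | zero => intro _; rw [hS.Z0]; simp
  | succ N ih =>
    intro hN
    have h1 := ih (by omega)
    have h2 := hS.step N (by omega)
    have h3 : r (N + 1) < 1 := lt_of_le_of_lt (ranti' n c r hR (N + 1) (by omega) 1 (by omega)) hR.r1
    have h4 : Z (N + 1) - Z N =
        psi (r (N + 1)) * ((ZZ (N + 1) - Z (N + 1)) - (ZZ N - Z N)) := by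
      unfold psi
      have h5 : 1 - r (N + 1) ≠ 0 := by linarith
      rw [div_mul_eq_mul_div, eq_div_iff h5]
      linear_combination (-1 : ℝ) * h2
    rw [Finset.sum_range_succ]
    linear_combination h1 + h4

lemma hh_mono (a b : ℝ) (hb : 0 ≤ b) (hab : b ≤ a) (ha : a < 1) : (a - b) * a ≤ hh a - hh b := by
  unfold hh
  have h1 : 0 < 1 - a ^ 2 := by nlinarith
  have h2 : 0 < 1 - b ^ 2 := by nlinarith
  rw [div_sub_div _ _ h1.ne' h2.ne', le_div_iff₀ (mul_pos h1 h2)]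
  have h3 : (1 - a ^ 2) * (1 - b ^ 2) ≤ 1 := by nlinarith [sq_nonneg a, sq_nonneg b]
  have h4 : 0 ≤ (a - b) * a := mul_nonneg (by linarith) (by linarith)
  calc (a - b) * a * ((1 - a ^ 2) * (1 - b ^ 2)) ≤ (a - b) * a * 1 :=
        mul_le_mul_of_nonneg_left h3 h4
    _ ≤ a ^ 2 * (1 - b ^ 2) - (1 - a ^ 2) * b ^ 2 := by nlinarith [mul_nonneg hb (sub_nonneg.2 hab)]

lemma psi_le (a b R : ℝ) (hb : 0 ≤ b) (hab : b ≤ a) (ha : a ≤ R) (hR : R < 1) :
    0 ≤ psi a - psi b ∧ psi a - psi b ≤ (a - b) / (1 - R) ^ 2 ∧ psi a - psi b ≤ 1 / (1 - R) := by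
  have h1 : 0 < 1 - a := by linarith
  have h2 : 0 < 1 - b := by linarith
  have h3 : 0 < 1 - R := by linarith
  have h4 : psi a - psi b = (a - b) / ((1 - a) * (1 - b)) := by
    unfold psi
    rw [div_sub_div _ _ h1.ne' h2.ne']
    congr 1
    ring
  refine ⟨?_, ?_, ?_⟩
  · rw [h4]; exact div_nonneg (by linarith) (mul_pos h1 h2).le
  · rw [h4]
    apply div_le_div_of_nonneg_left (by linarith) (by positivity)
    rw [sq]
    exact mul_le_mul (by linarith) (by linarith) h3.le h1.le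
  · have h5 : 0 ≤ psi b := div_nonneg hb h2.le
    have h6 : psi a ≤ 1 / (1 - R) := by
      unfold psi
      exact div_le_div₀ zero_le_one (by linarith) h3 (by linarith)
    linarith

/-- SML. -/
theorem sml : SmlStatement := by
  intro n c r hR
  have h1R : 0 < 1 - r 1 := by linarith [hR.r1]
  have hrn : 0 < r n := hR.rpos n le_rfl
  set K : ℝ := 1 / (r n * (1 - r 1) ^ 2) with hK
  have hK0 : 0 < K := by positivity
  refine ⟨3 * (1 + n * (1 / (1 - r 1) * K)), by positivity, ?_⟩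
  intro S Z ZZ ζ hS
  -- the monotonicity of S
  have hSpos : ∀ k, k ≤ n → S 0 ≤ S k := by
    intro k
    induction k with
    | zero => intro _; exact le_rfl
    | succ k ih => intro hk; exact le_trans (ih (by omega)) (hS.mono k (by omega))
  have hSle : ∀ m k, k + m = n → S k ≤ 1 := by
    intro m
    induction m with
    | zero => intro k hk; rw [← hS.Sn]; rw [add_zero] at hk; rw [hk]
    | succ m ih => intro k hk; exact le_trans (hS.mono k (by omega)) (ih (k + 1) (by omega))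
  have hG : ∀ j ∈ Finset.range n, 0 ≤ Gs r (j + 1) ∧ psi (r (j + 1)) - psi (r (j + 2)) ≤
      K * Gs r (j + 1) ∧ 0 ≤ psi (r (j + 1)) - psi (r (j + 2)) ∧
      psi (r (j + 1)) - psi (r (j + 2)) ≤ 1 / (1 - r 1) := by
    intro j hj
    have hj' := Finset.mem_range.1 hj
    have hb := rnonneg n c r hR (j + 2) (by omega)
    have hab : r (j + 2) ≤ r (j + 1) := hR.ranti (j + 1) (by omega)
    have ha1 : r (j + 1) ≤ r 1 := ranti' n c r hR (j + 1) (by omega) 1 (by omega)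
    have han : r n ≤ r (j + 1) := ranti' n c r hR n (by omega) (j + 1) (by omega)
    have hm := hh_mono (r (j + 1)) (r (j + 2)) hb hab (by linarith)
    have hp := psi_le (r (j + 1)) (r (j + 2)) (r 1) hb hab ha1 hR.r1
    have hG1 : (r (j + 1) - r (j + 2)) * r n ≤ Gs r (j + 1) := by
      unfold Gs
      exact le_trans (mul_le_mul_of_nonneg_left han (by linarith)) hm
    have hG0 : 0 ≤ (r (j + 1) - r (j + 2)) * r n := mul_nonneg (by linarith) hrn.le
    refine ⟨le_trans hG0 hG1, ?_, hp.1, hp.2.2⟩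
    calc psi (r (j + 1)) - psi (r (j + 2)) ≤ (r (j + 1) - r (j + 2)) / (1 - r 1) ^ 2 := hp.2.1
      _ = K * ((r (j + 1) - r (j + 2)) * r n) := by
        rw [hK]; field_simp
      _ ≤ K * Gs r (j + 1) := mul_le_mul_of_nonneg_left hG1 hK0.le
  have hsum0 : 0 ≤ ∑ j ∈ Finset.range n,
      Gs r (j + 1) * (bs S ZZ (j + 1) - bs S Z (j + 1)) ^ 2 :=
    Finset.sum_nonneg (fun j hj => mul_nonneg (hG j hj).1 (sq_nonneg _))
  have hN1 : (Z n - ζ) ^ 2 + (bs S Z 0 - ζ) ^ 2 ≤ Nf n r S Z ZZ ζ := by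
    unfold Nf; linarith
  have hN2 : ∑ j ∈ Finset.range n, Gs r (j + 1) * (bs S ZZ (j + 1) - bs S Z (j + 1)) ^ 2 ≤
      Nf n r S Z ZZ ζ := by
    unfold Nf; nlinarith [sq_nonneg (Z n - ζ), sq_nonneg (bs S Z 0 - ζ)]
  have hN0 : 0 ≤ Nf n r S Z ZZ ζ := le_trans hsum0 hN2
  refine ⟨?_, ?_, ?_, hN0⟩
  · -- the main inequality
    have hab := abel n c r S Z ZZ hR hS n le_rfl
    rw [hR.rlast] at hab
    have hps0 : psi 0 = 0 := by unfold psi; simp
    rw [hps0, mul_zero, add_zero] at hab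
    have hS0 := hS.S0
    have hb0 : Z 0 = S 0 * bs S Z 0 := by
      unfold bs; field_simp
    have hS01 : S 0 ≤ 1 := hSle n 0 (by omega)
    have h1 : (Z n - Z 0) ^ 2 ≤ n * (1 / (1 - r 1) * K) * Nf n r S Z ZZ ζ := by
      rw [hab]
      have hcs := sq_sum_le_card_mul_sum_sq (s := Finset.range n)
        (f := fun j => (ZZ (j + 1) - Z (j + 1)) * (psi (r (j + 1)) - psi (r (j + 2))))
      rw [Finset.card_range] at hcs
      refine le_trans hcs ?_
      rw [mul_assoc]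
      apply mul_le_mul_of_nonneg_left _ (Nat.cast_nonneg n)
      have h2 : ∑ j ∈ Finset.range n,
          ((ZZ (j + 1) - Z (j + 1)) * (psi (r (j + 1)) - psi (r (j + 2)))) ^ 2 ≤
          ∑ j ∈ Finset.range n, (1 / (1 - r 1) * K) *
            (Gs r (j + 1) * (bs S ZZ (j + 1) - bs S Z (j + 1)) ^ 2) := by
        apply Finset.sum_le_sum
        intro j hj
        have hj' := Finset.mem_range.1 hj
        obtain ⟨g0, g1, g2, g3⟩ := hG j hj
        have hSj0 : 0 < S (j + 1) := lt_of_lt_of_le hS0 (hSpos (j + 1) (by omega))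
        have hSj1 : S (j + 1) ≤ 1 := hSle (n - (j + 1)) (j + 1) (by omega)
        have hD : ZZ (j + 1) - Z (j + 1) = S (j + 1) * (bs S ZZ (j + 1) - bs S Z (j + 1)) := by
          unfold bs; field_simp
        have hD2 : (ZZ (j + 1) - Z (j + 1)) ^ 2 ≤ (bs S ZZ (j + 1) - bs S Z (j + 1)) ^ 2 := by
          rw [hD, mul_pow]
          have : S (j + 1) ^ 2 ≤ 1 := by nlinarith
          nlinarith [sq_nonneg (bs S ZZ (j + 1) - bs S Z (j + 1))]
        have hp2 : (psi (r (j + 1)) - psi (r (j + 2))) ^ 2 ≤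
            1 / (1 - r 1) * (K * Gs r (j + 1)) := by
          rw [sq]
          exact mul_le_mul g3 g1 g2 (by positivity)
        calc ((ZZ (j + 1) - Z (j + 1)) * (psi (r (j + 1)) - psi (r (j + 2)))) ^ 2
            = (ZZ (j + 1) - Z (j + 1)) ^ 2 * (psi (r (j + 1)) - psi (r (j + 2))) ^ 2 := by ring
          _ ≤ (bs S ZZ (j + 1) - bs S Z (j + 1)) ^ 2 * (1 / (1 - r 1) * (K * Gs r (j + 1))) :=
              mul_le_mul hD2 hp2 (sq_nonneg _) (sq_nonneg _)
          _ = _ := by ring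
      refine le_trans h2 ?_
      rw [← Finset.mul_sum]
      exact mul_le_mul_of_nonneg_left hN2 (by positivity)
    have h3 : (1 - S 0) * ζ = S 0 * (bs S Z 0 - ζ) + (-(Z n - ζ)) + (Z n - Z 0) := by
      rw [hb0]; ring
    have h4 : (S 0 * (bs S Z 0 - ζ)) ^ 2 ≤ (bs S Z 0 - ζ) ^ 2 := by
      rw [mul_pow]
      have : S 0 ^ 2 ≤ 1 := by nlinarith
      nlinarith [sq_nonneg (bs S Z 0 - ζ)]
    have h5 : ∀ x y z : ℝ, (x + y + z) ^ 2 ≤ 3 * (x ^ 2 + y ^ 2 + z ^ 2) := by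
      intro x y z
      nlinarith [sq_nonneg (x - y), sq_nonneg (y - z), sq_nonneg (x - z)]
    rw [h3]
    refine le_trans (h5 _ _ _) ?_
    have h6 : (-(Z n - ζ)) ^ 2 = (Z n - ζ) ^ 2 := by ring
    rw [h6]
    nlinarith
  · nlinarith [sq_nonneg ((bs S Z 0 - ζ) + (Z n - ζ))]
  · nlinarith [sq_nonneg (bs S Z 0 - ζ)]

end Pool.Agent.Lib.MP_4fbe7c_an.UL.H59
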